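import Pool.Agent.H153Z.Spam

set_option autoImplicit false

open MeasureTheory
open scoped ENNReal NNReal

namespace Pool.Agent.Results.MP_590456_lc.AFalse

open Pool.Agent.H153Z.Spam

/-- The review spam conjecture fails: for every error probability `ε < 1/2`, every randomized
pricing algorithm, every constant `c` and every `L ≥ 1` there is an adversary with
`c (E[T]^(2/3) + E[P_G]) < E[C]`. -/
theorem result (ε : ℝ≥0) (hε : ε < 1 / 2) (A : Algorithm) (c : ℝ≥0) (L : ℕ) (hL : 1 ≤ L) :
    ∃ B : Adversary L, Measurable (rateT A B) ∧ Measurable (rateC A B) ∧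
      c * ((∫⁻ z, rateT A B z ∂(A.P.prod (errLaw ε))) ^ (2 / 3 : ℝ) + ratePG B) <
        ∫⁻ z, rateC A B z ∂(A.P.prod (errLaw ε)) :=
  main ε hε A c L hL

end Pool.Agent.Results.MP_590456_lc.AFalse
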